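import Pool.Agent.LE.StmtsH2
import Pool.Agent.Helper25_Mob.Shf

/-!
# CN2: almost surely there is no eigenvalue free set of positive measure near which the
eigenfunctions are complete
-/

set_option autoImplicit false

open MeasureTheory ProbabilityTheory Function Filter

open scoped ENNReal BigOperators InnerProductSpace Topology

noncomputable section

namespace Pool.Agent.LE.CH.H69

open Pool.Agent.Anderson Pool.Agent.Loc Pool.Agent.Mob Pool.Agent.Helper54.Bal
open Pool.Agent.LE.CH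

theorem cn2_norm {d : ℕ} {V : Site d → ℝ} {z : ℂ} (hz : z.im ≠ 0) (x : Site d) :
    ‖G (tau x V) z (del 0)‖ = ‖G V z (del x)‖ := by
  have h : G (tau x V) z (del 0) = shift x (G V z (del x)) := by
    ext u
    rw [shift_apply]
    exact Pool.Agent.Mob.H25.G_tau hz x u
  rw [h, LinearIsometry.norm_map]

theorem cn2_wt {d : ℕ} (V : Site d → ℝ) (B : Set ℝ) {η : ℝ} (hη : η ≠ 0) (x : Site d) :
    wt (tau x V) B η (del 0) = wt V B η (del x) := by
  unfold wt
  refine lintegral_congr fun E => ?_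
  have hz : (zz η E).im ≠ 0 := by rw [zz_im]; exact hη
  rw [cn2_norm hz]

/-- the limit function -/
def cn2f (d : ℕ) (B : Set ℝ) (V : Site d → ℝ) : ℝ≥0∞ :=
  limsup (fun m : ℕ => wt V B (1 / ((m : ℝ) + 1)) (del (0 : Site d))) atTop

theorem cn2f_meas (hM : MewStmt) (d : ℕ) {B : Set ℝ} (hB : MeasurableSet B) :
    Measurable (cn2f d B) := by
  have hpos : ∀ n : ℕ, (0 : ℝ) < 1 / ((n : ℝ) + 1) := fun n => by positivity
  exact Measurable.limsup fun n => hM d B (1 / ((n : ℝ) + 1)) (del (0 : Site d)) (hpos n) hB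

/-- the invariant set -/
def cn2A (d : ℕ) (B : Set ℝ) : Set (Site d → ℝ) := {V | ∀ a : Site d, cn2f d B (tau a V) = 0}

theorem cn2A_meas (hM : MewStmt) (d : ℕ) {B : Set ℝ} (hB : MeasurableSet B) :
    MeasurableSet (cn2A d B) := by
  have h : cn2A d B = ⋂ a : Site d, (fun V => cn2f d B (tau a V)) ⁻¹' {0} := by
    ext V
    simp [cn2A]
  rw [h]
  exact MeasurableSet.iInter fun a =>
    ((cn2f_meas hM d hB).comp (measurable_tau a)) (measurableSet_singleton 0)

theorem cn2A_inv (d : ℕ) (B : Set ℝ) (a : Site d) : tau a ⁻¹' (cn2A d B) = cn2A d B := by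
  ext V
  simp only [cn2A, Set.mem_preimage, Set.mem_setOf_eq]
  constructor
  · intro h b
    have h1 := h (b - a)
    rw [tau_tau, sub_add_cancel] at h1
    exact h1
  · intro h b
    rw [tau_tau]
    exact h (b + a)

theorem cn2A_mem (hL : LimStmt) {d : ℕ} {V : Site d → ℝ} {a r : ℝ} {B : Set ℝ} (hB : IsClosed B)
    (hr : 0 < r) (hBr : B ⊆ Set.Icc (a - r / 2) (a + r / 2)) (hC : CplJ V a r)
    (hE : ∀ E ∈ B, ∀ φ : L2 d, IsEigen V E φ → φ = 0) : V ∈ cn2A d B := by
  have hpos : ∀ n : ℕ, (0 : ℝ) < 1 / ((n : ℝ) + 1) := fun n => by positivity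
  intro x
  have h1 := hL d V a r B (del x) hB hr hBr hC hE
  have h2 : Tendsto (fun n : ℕ => 1 / ((n : ℝ) + 1)) atTop (𝓝[>] 0) :=
    tendsto_nhdsWithin_iff.2 ⟨tendsto_one_div_add_atTop_nhds_zero_nat,
      Eventually.of_forall fun n => hpos n⟩
  have h3 : Tendsto (fun n : ℕ => wt V B (1 / ((n : ℝ) + 1)) (del x)) atTop (𝓝 0) := h1.comp h2
  have h4 : (fun m : ℕ => wt (tau x V) B (1 / ((m : ℝ) + 1)) (del (0 : Site d))) =
      fun n : ℕ => wt V B (1 / ((n : ℝ) + 1)) (del x) := by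
    funext n
    exact cn2_wt V B (hpos n).ne' x
  unfold cn2f
  rw [h4]
  exact h3.limsup_eq

theorem cn2.{u} (hL : LimStmt) (hW : WtlStmt) (hM : MewStmt) (hA : AvlStmt) (hE : ErgStmt) :
    Cn2Stmt.{u} := by
  intro d σ a r B hd hσ hB hr hBr hvol Ω _ P _ W hWm hmap
  haveI : IsProbabilityMeasure (gl σ) := inferInstance
  haveI : IsProbabilityMeasure (PP d (gl σ)) := inferInstance
  obtain ⟨c, hc, hlow⟩ := hA d σ (|a| + r) hd hσ
  have hK : B ⊆ Set.Icc (-(|a| + r)) (|a| + r) := by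
    intro E hE
    have h1 := hBr hE
    rw [Set.mem_Icc] at h1 ⊢
    have h2 := neg_abs_le a
    have h3 := le_abs_self a
    constructor <;> linarith [h1.1, h1.2]
  have hpos : ∀ n : ℕ, (0 : ℝ) < 1 / ((n : ℝ) + 1) := fun n => by positivity
  have hle : ∀ n : ℕ, 1 / ((n : ℝ) + 1) ≤ (1 : ℝ) := fun n => by
    rw [div_le_one (by positivity)]
    have : (0 : ℝ) ≤ n := Nat.cast_nonneg n
    linarith
  set F : ℕ → (Site d → ℝ) → ℝ≥0∞ :=
    fun n V => wt V B (1 / ((n : ℝ) + 1)) (del (0 : Site d)) with hF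
  have hFm : ∀ n, Measurable (F n) := fun n =>
    hM d B (1 / ((n : ℝ) + 1)) (del (0 : Site d)) (hpos n) hB.measurableSet
  have hnorm : ‖(del (0 : Site d))‖ = 1 := by
    simp [del]
  have hFb : ∀ n V, F n V ≤ 1 := fun n V => by
    have := hW d V B (1 / ((n : ℝ) + 1)) (del (0 : Site d)) (hpos n)
    rw [hnorm, one_pow, ENNReal.ofReal_one] at this
    exact this
  have hlb : ∀ n, ENNReal.ofReal c * volume B ≤ ∫⁻ V, F n V ∂(PP d (gl σ)) := fun n =>
    hlow (1 / ((n : ℝ) + 1)) B (hpos n) (hle n) hB.measurableSet hK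
  have hp : 0 < ENNReal.ofReal c * volume B :=
    ENNReal.mul_pos (ENNReal.ofReal_pos.2 hc).ne' hvol.ne'
  have hrev : ENNReal.ofReal c * volume B ≤ ∫⁻ V, cn2f d B V ∂(PP d (gl σ)) := by
    have h1 := limsup_lintegral_le (μ := PP d (gl σ)) (f := F) (fun _ => (1 : ℝ≥0∞)) hFm
      (fun n => ae_of_all _ (hFb n)) (by simp)
    refine le_trans ?_ h1
    refine le_limsup_of_le ?_ ?_
    · exact isBounded_le_of_top
    · intro b hb
      obtain ⟨n, hn⟩ := hb.exists
      exact (hlb n).trans hn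
  have hnot1 : PP d (gl σ) (cn2A d B) ≠ 1 := by
    intro h1
    have h2 : ∀ᵐ V ∂(PP d (gl σ)), V ∈ cn2A d B := by
      rw [← prob_compl_eq_zero_iff (cn2A_meas hM d hB.measurableSet)] at h1
      exact h1
    have h3 : ∫⁻ V, cn2f d B V ∂(PP d (gl σ)) = 0 := by
      rw [lintegral_eq_zero_iff (cn2f_meas hM d hB.measurableSet)]
      filter_upwards [h2] with V hV
      have h4 := hV 0
      rw [tau_zero] at h4
      exact h4
    rw [h3] at hrev
    exact absurd hrev (not_le.2 hp)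
  have h0 : PP d (gl σ) (cn2A d B) = 0 := by
    rcases hE d (gl σ) (cn2A d B) hd (cn2A_meas hM d hB.measurableSet) (cn2A_inv d B) with h | h
    · exact h
    · exact absurd h hnot1
  have h5 : P (W ⁻¹' cn2A d B) = 0 := by
    rw [← Measure.map_apply hWm (cn2A_meas hM d hB.measurableSet), hmap]
    exact h0
  have h6 : ∀ᵐ ω ∂P, ω ∉ W ⁻¹' cn2A d B := measure_eq_zero_iff_ae_notMem.1 h5
  filter_upwards [h6] with ω hω hbad
  exact hω (cn2A_mem hL hB hr hBr hbad.1 hbad.2)

end Pool.Agent.LE.CH.H69
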