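import Pool.Agent.LE.StmtsH

/-!
# MEW: measurability of the smoothed spectral measure in the potential
-/

set_option autoImplicit false

open MeasureTheory ProbabilityTheory Function Filter

open scoped ENNReal BigOperators InnerProductSpace Topology

noncomputable section

namespace Pool.Agent.LE.CH.H69

open Pool.Agent.Anderson Pool.Agent.Loc Pool.Agent.Mob Pool.Agent.Helper54.Bal
open Pool.Agent.LE.CH

theorem mew_cont (d : ℕ) (η : ℝ) (u : L2 d) (hη : η ≠ 0) :
    Continuous fun p : (Site d → ℝ) × ℝ => ‖G p.1 (zz η p.2) u‖ ^ 2 := by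
  have h := continuous_G (d := d) hη
  have h2 : Continuous fun p : (Site d → ℝ) × ℝ => ((p.1, p.2, u) : (Site d → ℝ) × ℝ × L2 d) := by
    fun_prop
  have h3 := (h.comp h2).norm.pow 2
  exact h3

theorem mew_meas (d : ℕ) (η : ℝ) (u : L2 d) (hη : η ≠ 0) :
    Measurable fun p : (Site d → ℝ) × ℝ =>
      ENNReal.ofReal (η / Real.pi * ‖G p.1 (zz η p.2) u‖ ^ 2) := by
  have h := (mew_cont d η u hη).measurable
  exact (h.const_mul (η / Real.pi)).ennreal_ofReal

theorem mew : MewStmt := by
  intro d S η u hη _
  have h := Measurable.lintegral_prod_right' (ν := (volume : Measure ℝ).restrict S)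
    (mew_meas d η u hη.ne')
  exact h

end Pool.Agent.LE.CH.H69
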