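import Pool.Agent.LE.StmtsH

/-!
# CNV: there is no eigenvalue free set of positive measure near which the eigenfunctions are complete
-/

set_option autoImplicit false

open MeasureTheory ProbabilityTheory Function Filter

open scoped ENNReal BigOperators InnerProductSpace Topology

noncomputable section

namespace Pool.Agent.LE.CH.H69

open Pool.Agent.Anderson Pool.Agent.Loc Pool.Agent.Mob Pool.Agent.Helper54.Bal
open Pool.Agent.LE.CH

theorem cnv.{u} (hL : LimStmt) (hW : WtlStmt) (hM : MewStmt) (hA : AvlStmt) : CnvStmt.{u} := by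
  intro d σ a r B hd hσ hB hr hBr hvol Ω _ P _ W hWm hmap hbad
  obtain ⟨c, hc, hlow⟩ := hA d σ (|a| + r) hd hσ
  have hK : B ⊆ Set.Icc (-(|a| + r)) (|a| + r) := by
    intro E hE
    have h1 := hBr hE
    rw [Set.mem_Icc] at h1 ⊢
    have h2 := neg_abs_le a
    have h3 := le_abs_self a
    constructor <;> linarith [h1.1, h1.2]
  have hpos : ∀ n : ℕ, (0 : ℝ) < 1 / ((n : ℝ) + 1) := fun n => by positivity
  have hle : ∀ n : ℕ, 1 / ((n : ℝ) + 1) ≤ (1 : ℝ) := fun n => by
    rw [div_le_one (by positivity)]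
    have : (0 : ℝ) ≤ n := Nat.cast_nonneg n
    linarith
  set F : ℕ → Ω → ℝ≥0∞ := fun n ω => wt (W ω) B (1 / ((n : ℝ) + 1)) (del (0 : Site d)) with hF
  have hFm : ∀ n, Measurable (F n) := fun n =>
    (hM d B (1 / ((n : ℝ) + 1)) (del (0 : Site d)) (hpos n) hB.measurableSet).comp hWm
  have hnorm : ‖(del (0 : Site d))‖ = 1 := by
    simp [del]
  have hFb : ∀ n ω, F n ω ≤ 1 := fun n ω => by
    have := hW d (W ω) B (1 / ((n : ℝ) + 1)) (del (0 : Site d)) (hpos n)
    rw [hnorm, one_pow, ENNReal.ofReal_one] at this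
    exact this
  have hlim : Tendsto (fun n => ∫⁻ ω, F n ω ∂P) atTop (𝓝 (∫⁻ _, (0 : ℝ≥0∞) ∂P)) := by
    refine tendsto_lintegral_of_dominated_convergence (fun _ => (1 : ℝ≥0∞)) hFm
      (fun n => ae_of_all _ (hFb n)) (by simp) ?_
    filter_upwards [hbad] with ω hω
    have h1 := hL d (W ω) a r B (del (0 : Site d)) hB hr hBr hω.1 hω.2
    have h2 : Tendsto (fun n : ℕ => 1 / ((n : ℝ) + 1)) atTop (𝓝[>] 0) :=
      tendsto_nhdsWithin_iff.2 ⟨tendsto_one_div_add_atTop_nhds_zero_nat,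
        Eventually.of_forall fun n => hpos n⟩
    exact h1.comp h2
  have hlb : ∀ n, ENNReal.ofReal c * volume B ≤ ∫⁻ ω, F n ω ∂P := fun n => by
    have h1 := hlow (1 / ((n : ℝ) + 1)) B (hpos n) (hle n) hB.measurableSet hK
    rw [← hmap, lintegral_map
      (hM d B (1 / ((n : ℝ) + 1)) (del (0 : Site d)) (hpos n) hB.measurableSet) hWm] at h1
    exact h1
  have hfin : ENNReal.ofReal c * volume B ≤ ∫⁻ _, (0 : ℝ≥0∞) ∂P := ge_of_tendsto' hlim hlb
  rw [lintegral_zero] at hfin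
  have hp : 0 < ENNReal.ofReal c * volume B :=
    ENNReal.mul_pos (ENNReal.ofReal_pos.2 hc).ne' hvol.ne'
  exact absurd hfin (not_le.2 hp)

end Pool.Agent.LE.CH.H69
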